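import Mathlib

namespace Pool.Agent.Results.MP_b3a6b1_al.Third

open Matrix

variable {K : Type} [Field K] {n : ℕ}

/-- irreducible tridiagonal -/
def ITri (M : Matrix (Fin n) (Fin n) K) : Prop :=
  ∀ i j : Fin n, (i.val + 1 < j.val ∨ j.val + 1 < i.val → M i j = 0) ∧
    (i.val + 1 = j.val ∨ j.val + 1 = i.val → M i j ≠ 0)

/-- the matrix of `X` in the basis formed by the columns of `P` -/
def inB (P : GL (Fin n) K) (X : Matrix (Fin n) (Fin n) K) : Matrix (Fin n) (Fin n) K :=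
  (P⁻¹).val * X * P.val

def LeonardPair (X Y : Matrix (Fin n) (Fin n) K) : Prop :=
  (∃ P, (inB P X).IsDiag ∧ ITri (inB P Y)) ∧ (∃ P, (inB P Y).IsDiag ∧ ITri (inB P X))

def LeonardTriple (X Y Z : Matrix (Fin n) (Fin n) K) : Prop :=
  (∃ P, (inB P X).IsDiag ∧ ITri (inB P Y) ∧ ITri (inB P Z)) ∧
  (∃ P, (inB P Y).IsDiag ∧ ITri (inB P X) ∧ ITri (inB P Z)) ∧
  (∃ P, (inB P Z).IsDiag ∧ ITri (inB P X) ∧ ITri (inB P Y))

def AW (B C : Matrix (Fin n) (Fin n) K) : Prop :=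
  ∃ β γ γ' ρ ρ' ω η η' : K,
    B ^ 2 * C - β • (B * C * B) + C * B ^ 2 - γ • (B * C + C * B) - ρ • C =
      γ' • B ^ 2 + ω • B + η • 1 ∧
    C ^ 2 * B - β • (C * B * C) + B * C ^ 2 - γ' • (C * B + B * C) - ρ' • B =
      γ • C ^ 2 + ω • C + η' • 1

def ch (P Q X Y : Matrix (Fin 3) (Fin 3) ℚ) : Prop :=
  P * Q = 1 ∧ Q * P = 1 ∧ (∀ i j, i ≠ j → (Q * X * P) i j = 0) ∧ ∀ i j : Fin 3,
    (i.val + 1 < j.val ∨ j.val + 1 < i.val → (Q * Y * P) i j = 0) ∧
    (i.val + 1 = j.val ∨ j.val + 1 = i.val → (Q * Y * P) i j ≠ 0)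

theorem half [CharZero K] {P Q X Y : Matrix (Fin 3) (Fin 3) ℚ} (h : ch P Q X Y) :
    ∃ g : GL (Fin 3) K, (inB g (X.map (algebraMap ℚ K))).IsDiag ∧
      ITri (inB g (Y.map (algebraMap ℚ K))) := by
  obtain ⟨h1, h2, h3, h4⟩ := h
  have e : ∀ M N : Matrix (Fin 3) (Fin 3) ℚ, (M * N).map (algebraMap ℚ K) =
      M.map (algebraMap ℚ K) * N.map (algebraMap ℚ K) := fun M N => Matrix.map_mul
  let g : GL (Fin 3) K := ⟨P.map (algebraMap ℚ K), Q.map (algebraMap ℚ K),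
    by rw [← e, h1]; simp, by rw [← e, h2]; simp⟩
  have k : ∀ Z : Matrix (Fin 3) (Fin 3) ℚ, inB g (Z.map (algebraMap ℚ K)) =
      (Q * Z * P).map (algebraMap ℚ K) := fun Z => by
    rw [e, e]; rfl
  refine ⟨g, ?_, ?_⟩
  · intro i j hij
    rw [k, Matrix.map_apply, h3 i j hij, map_zero]
  · intro i j
    rw [k, Matrix.map_apply]
    refine ⟨fun h => by rw [(h4 i j).1 h, map_zero], fun h => ?_⟩
    exact (map_ne_zero _).2 ((h4 i j).2 h)

def A : Matrix (Fin 3) (Fin 3) ℚ := !![0, 4, 4; -2, -6, -4; 1, 2, 1]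
def B : Matrix (Fin 3) (Fin 3) ℚ := !![-4, -4, -4; 2, 3, 4; -1, -2, -3]
def C : Matrix (Fin 3) (Fin 3) ℚ := !![-4, 0, 0; 0, -3, 0; 0, 0, -2]
def PA : Matrix (Fin 3) (Fin 3) ℚ := !![1, -2, 4; -1, 1, -4; 1, 0, 1]
def QA : Matrix (Fin 3) (Fin 3) ℚ := !![1/3, 2/3, 4/3; -1, -1, 0; -1/3, -2/3, -1/3]
def PB : Matrix (Fin 3) (Fin 3) ℚ := !![1, 0, 4; -2, -1, -2; 1, 1, 1]
def QB : Matrix (Fin 3) (Fin 3) ℚ := !![-1/3, -4/3, -4/3; 0, 1, 2; 1/3, 1/3, 1/3]

theorem c1 : ch PA QA A B := by unfold ch; decide +kernel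
theorem c2 : ch PB QB B A := by unfold ch; decide +kernel

theorem aw [CharZero K] (X Y : Matrix (Fin 3) (Fin 3) ℚ) (γ γ' ρ ρ' ω η η' : ℚ)
    (h1 : X * X * Y - (-1 : ℚ) • (X * Y * X) + Y * (X * X) - γ • (X * Y + Y * X) - ρ • Y =
      γ' • (X * X) + ω • X + η • 1)
    (h2 : Y * Y * X - (-1 : ℚ) • (Y * X * Y) + X * (Y * Y) - γ' • (Y * X + X * Y) - ρ' • X =
      γ • (Y * Y) + ω • Y + η' • 1) :
    AW (X.map (algebraMap ℚ K)) (Y.map (algebraMap ℚ K)) := by
  let f : Matrix (Fin 3) (Fin 3) ℚ →+* Matrix (Fin 3) (Fin 3) K := (algebraMap ℚ K).mapMatrix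
  have sm : ∀ (q : ℚ) M, f (q • M) = (q : K) • f M := fun q M => by
    ext i j; simp [f]
  have e1 := congrArg f h1
  have e2 := congrArg f h2
  simp only [map_add, map_sub, map_mul, map_one, sm] at e1 e2
  show AW (f X) (f Y)
  exact ⟨(-1 : ℚ), γ, γ', ρ, ρ', ω, η, η', by simpa only [pow_two] using e1,
    by simpa only [pow_two] using e2⟩

theorem pattern {X : Matrix (Fin n) (Fin n) K} (hX : X.IsDiag)
    (hi : ∀ i j, X i i = X j j → i = j) (g : GL (Fin n) K) (hg : (inB g X).IsDiag) :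
    ∃ σ : Equiv.Perm (Fin n), ∀ Y i j, inB g Y i j = 0 ↔ Y (σ i) (σ j) = 0 := by
  have hm : ∀ Y, g.val * inB g Y = Y * g.val := fun Y => by
    unfold inB
    rw [← Matrix.mul_assoc, ← Matrix.mul_assoc, ← Units.val_mul, mul_inv_cancel, Units.val_one,
      Matrix.one_mul]
  have hd : g.val.det ≠ 0 := (Matrix.isUnit_iff_isUnit_det _).1 g.isUnit |>.ne_zero
  rw [Matrix.det_apply] at hd
  obtain ⟨σ, -, hσ⟩ := Finset.exists_ne_zero_of_sum_ne_zero hd
  have hp : ∀ i, g.val (σ i) i ≠ 0 := fun i h0 => hσ (by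
    rw [Finset.prod_eq_zero (f := fun k => g.val (σ k) k) (Finset.mem_univ i) h0, smul_zero])
  have ent : ∀ a b, g.val a b * inB g X b b = X a a * g.val a b := fun a b => by
    have := congrFun (congrFun (hm X) a) b
    rw [Matrix.mul_apply, Matrix.mul_apply, Finset.sum_eq_single b, Finset.sum_eq_single a] at this
    · exact this
    · intro c _ hc; rw [hX (Ne.symm hc), zero_mul]
    · simp
    · intro c _ hc; rw [hg hc, mul_zero]
    · simp
  have hz : ∀ a b, a ≠ σ b → g.val a b = 0 := fun a b hab => by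
    by_contra h0
    apply hab
    apply hi
    have e1 := ent a b
    have e2 := ent (σ b) b
    rw [mul_comm] at e1 e2
    rw [← mul_right_cancel₀ h0 e1, mul_right_cancel₀ (hp b) e2]
  refine ⟨σ, fun Y i j => ?_⟩
  have := congrFun (congrFun (hm Y) (σ i)) j
  rw [Matrix.mul_apply, Matrix.mul_apply, Finset.sum_eq_single i, Finset.sum_eq_single (σ j)]
    at this
  · constructor
    · intro h
      rw [h, mul_zero] at this
      exact (mul_eq_zero.1 this.symm).resolve_right (hp j)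
    · intro h
      rw [h, zero_mul] at this
      exact (mul_eq_zero.1 this).resolve_left (hp i)
  · intro c _ hc; rw [hz c j hc, mul_zero]
  · simp
  · intro c _ hc; rw [hz (σ i) c (fun h => hc (σ.injective h).symm), zero_mul]
  · simp

theorem result (K : Type) [Field K] [CharZero K] :
    ∃ X Y Z : Matrix (Fin 3) (Fin 3) K, LeonardPair X Y ∧
      Z ∈ Submodule.span K {1, X, Y, X * Y, Y * X} ∧
      X ∈ Submodule.span K {1, Y, Z, Y * Z, Z * Y} ∧
      Y ∈ Submodule.span K {1, Z, X, Z * X, X * Z} ∧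
      AW X Y ∧ AW X Z ∧ AW Y Z ∧ (∃ P, (inB P Z).IsDiag) ∧ ¬ LeonardTriple X Y Z := by
  have hC : C.map (algebraMap ℚ K) = A.map (algebraMap ℚ K) + B.map (algebraMap ℚ K) := by
    have : C = A + B := by decide +kernel
    rw [this]; ext i j; simp
  have a1 : ∀ i j, i ≠ j → C i j = 0 := by decide +kernel
  have a2 : ∀ i j, C i i = C j j → i = j := by decide +kernel
  have a3 : ∀ i j, i ≠ j → A i j ≠ 0 := by decide +kernel
  have hd : (C.map (algebraMap ℚ K)).IsDiag := fun i j h => by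
    show algebraMap ℚ K (C i j) = 0
    rw [a1 i j h, map_zero]
  refine ⟨A.map (algebraMap ℚ K), B.map (algebraMap ℚ K), C.map (algebraMap ℚ K),
    ⟨half c1, half c2⟩, ?_, ?_, ?_,
    aw A B (-5) (-4) (-6) (-3) (-17) (-12) (-12) (by decide +kernel) (by decide +kernel),
    aw A C (-5) (-9) (-6) (-26) (-29) (-12) (-36) (by decide +kernel) (by decide +kernel),
    aw B C (-4) (-9) (-3) (-26) (-23) (-12) (-36) (by decide +kernel) (by decide +kernel),
    ⟨1, by simpa [inB] using hd⟩, ?_⟩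
  · nth_rewrite 1 [hC]
    exact add_mem (Submodule.subset_span (by simp)) (Submodule.subset_span (by simp))
  · nth_rewrite 1 [← sub_eq_iff_eq_add.2 hC]
    exact sub_mem (Submodule.subset_span (by simp)) (Submodule.subset_span (by simp))
  · nth_rewrite 1 [← sub_eq_iff_eq_add'.2 hC]
    exact sub_mem (Submodule.subset_span (by simp)) (Submodule.subset_span (by simp))
  · rintro ⟨-, -, g, h1, h2, -⟩
    obtain ⟨σ, hσ⟩ := pattern hd (fun i j h => a2 i j ((algebraMap ℚ K).injective h)) g h1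
    have := (hσ _ 0 2).1 ((h2 0 2).1 (by simp))
    exact a3 _ _ (σ.injective.ne (by decide)) ((map_eq_zero (algebraMap ℚ K)).1 this)

end Pool.Agent.Results.MP_b3a6b1_al.Third
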